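import Pool.Agent.Helper50.Tm.Goals

/-!
Packet TM-BASER (MP_f619a5_ag): base change and reduction.
-/

open CategoryTheory AlgebraicGeometry Limits TensorProduct MonoidalCategory
open scoped Obj

namespace Pool.Agent.Helper7.Tm

open Pool.Agent.Helper50.Tm
open Pool.Agent.Helper40.Nm (specOver homGroup specialFibre)

theorem gBASER (hBASE : Pool.Agent.Helper50.Tm.BASE) : Pool.Agent.Helper50.Tm.BASER := by
  intro K R M S N _ _ _ _ _ _ _ _ _ _ _ _ _ _ _ _ X _ 𝒢 ℋ x hx
  obtain ⟨b, hb⟩ := hBASE K R M S N X 𝒢 ℋ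
  set I : Ideal S := (IsLocalRing.maximalIdeal R).map (algebraMap R S) with hI
  let q : S →ₐ[S] S ⧸ I := Ideal.Quotient.mkₐ S I
  let q' : S →ₐ[R] S ⧸ I := q.restrictScalars R
  let g : IsLocalRing.ResidueField R →ₐ[R] S ⧸ I :=
    Ideal.Quotient.liftₐ (IsLocalRing.maximalIdeal R) (Algebra.ofId R (S ⧸ I)) (by
      intro a ha
      change algebraMap R (S ⧸ I) a = 0
      rw [IsScalarTower.algebraMap_apply R S (S ⧸ I)]
      change Ideal.Quotient.mk I (algebraMap R S a) = 0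
      rw [Ideal.Quotient.eq_zero_iff_mem]
      exact Ideal.mem_map_of_mem _ ha)
  have key : ∀ y : Pts X M, redk (sec 𝒢 y) = 1 →
      (sec ℋ (y.map (IsScalarTower.toAlgHom K M N))).map q =
        bcEquiv (M := S) 𝒢.G (1 : Pts 𝒢.G (S ⧸ I)) ≫ b := by
    intro y hy
    rw [← hb y]
    have h1 : Pts.map (G := ℋ.G) q
        (bcEquiv (M := S) 𝒢.G ((sec 𝒢 y).map (Algebra.ofId R S)) ≫ b) =
        (bcEquiv (M := S) 𝒢.G ((sec 𝒢 y).map (Algebra.ofId R S))).map q ≫ b := by
      unfold Pts.map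
      rw [Category.assoc]
    rw [h1, ← bcEquiv_map 𝒢.G q q' (fun _ => rfl), ← Pts.map_comp]
    have h2 : q'.comp (Algebra.ofId R S) =
        g.comp (Algebra.ofId R (IsLocalRing.ResidueField R)) := Subsingleton.elim _ _
    rw [h2, Pts.map_comp]
    have h3 : (sec 𝒢 y).map (Algebra.ofId R (IsLocalRing.ResidueField R)) = 1 := hy
    rw [h3, Pts.map_one]
  have h1 : redk (sec 𝒢 (1 : Pts X M)) = 1 := by
    rw [_root_.map_one]
    exact Pts.map_one _
  have h2 := key 1 h1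
  rw [Pts.map_one, _root_.map_one, Pts.map_one] at h2
  exact (key x hx).trans h2.symm

end Pool.Agent.Helper7.Tm
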